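import Pool.Agent.Lib.MP_4e5fcd_ag.SW.BH4
import Pool.Agent.Lib.MP_4e5fcd_ag.HC.Main

/-!
# The motivic monodromy conjecture for complete intersections

The definitions of the statement are in `Pool/Agent/Lib/MP_4e5fcd_ag/Defs.lean`,
`Pool/Agent/Lib/MP_4e5fcd_ag/LF/Defs.lean`, `Pool/Agent/Lib/MP_4e5fcd_ag/WH/Defs.lean`,
`Pool/Agent/Lib/MP_4e5fcd_ag/SW/Defs.lean` and `Pool/Agent/Lib/MP_4e5fcd_ag/HC/Defs.lean`.
-/

open MvPolynomial MotMono MotMono.WH MotMono.HC

namespace MotMono.OldCIV1

/-- The conclusion of Q1 for the ideal `I` and `s₀`: if `L^(-s₀)` is a pole of the motivic zeta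
function of `I` at the origin, then in every ball around the origin there is a point `p` of `V(I)` and a
point `y`, not on the zero section, of the normal cone over `p`, such that `exp (2πi s₀)` is a zero or a
pole of the monodromy zeta function at `y`. -/
def Q1At {N : ℕ} (χ : K0 →+* ℤ) (I : Ideal (MvPolynomial (Fin N) ℂ)) (s₀ : ℚ) : Prop :=
  IsPole (Zmot I) s₀ → ∀ ε : ℝ, 0 < ε →
    ∃ p : Fin N → ℂ, ‖p‖ < ε ∧ (∀ g ∈ I, eval p g = 0) ∧
      ∃ y : ConePoint I p, y.Nonzero ∧
        ∃ Z, IsZeta (fun m => χ (cls (contactArcs I p y m))) Z ∧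
          ZeroOrPole Z (Complex.exp (2 * Real.pi * Complex.I * s₀))

/-- **First part.** Let `f j` be polynomials of order `d j > 0` at the origin, `F j` the homogeneous
component of degree `d j` of `f j`, and assume that for every `e` the gradients of the `F j` with
`d j ≤ e` are linearly independent at each of their common zeros `c ≠ 0` (these `F j` define a
nonsingular complete intersection in `P^(N-1)`). Then the conclusion of Q1 holds for the ideal generated
by the `f j` and all `s₀`.

**Second part.** Let `m i ≥ 2`, `1 ≤ r ≤ N`, let all `r × r` minors of the complex `r × N` matrix `a`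
be different from `0`, and let `f j = ∑_i a j i x_i ^ (m i) +` monomials of order `> 1` for the weights
`1 / m i` (Brieskorn-Hamm complete intersections with arbitrary terms of higher order). Then the
conclusion of Q1 holds for the ideal generated by the `f j` and all `s₀`.

**Third part.** Let `f j` be polynomials of weighted order `d j > 0` for the weights `w`, with initial
forms `F j = ini w d f j`, and let `I` be the ideal generated by them. Assume that for every `e` the
gradients of the `F j` with `d j ≤ e` are linearly independent at each of their common zeros `c ≠ 0`. Let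
`s₀` be such that, if `s₀ = -(q + e n) / e` is not an integer, where `e = d j₀` is one of the degrees, `n`
is the number of the degrees `d j < e` and `q` is the sum of the weights minus the sum of the degrees
`d j < e`, then one of the fibres `X = {F j = 0 (d j < e), F j = y j (d j = e)}`, `y ≠ 0`, satisfies
`∑_{m = 1}^{e} exp (-2πi m s₀) χ (X_m) ≠ 0`, where `X_m = fibre w d F e y m` is the set of the points `x` of
`X` with `x i = 0` unless `e` divides `m w i` (the fixed points of the `m`-th power of the monodromy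
`x ↦ (exp (2πi w_i / e) x_i)`). Then the conclusion of Q1 holds for `I` and `s₀`. -/
theorem result :
    (∀ χ : K0 →+* ℤ, IsEulerCharC χ →
      ∀ (N r : ℕ) (d : Fin r → ℕ) (f : Fin r → MvPolynomial (Fin N) ℂ),
        0 < r → (∀ j, 0 < d j) → (∀ j m, coeff m (f j) ≠ 0 → d j ≤ ∑ i, m i) →
        (∀ j, homogeneousComponent (d j) (f j) ≠ 0) →
        (∀ c, c ≠ 0 → ∀ e, (∀ j, d j ≤ e → eval c (homogeneousComponent (d j) (f j)) = 0) →
          LinearIndependent ℂ fun j : {j // d j ≤ e} => grad (homogeneousComponent (d j) (f j)) c) →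
        ∀ s₀ : ℚ, Q1At χ (Ideal.span (Set.range f)) s₀) ∧
    (∀ χ : K0 →+* ℤ, IsEulerCharF χ →
      ∀ (N r : ℕ) (m : Fin N → ℕ) (a : Fin r → Fin N → ℂ) (f : Fin r → MvPolynomial (Fin N) ℂ),
        0 < r → r ≤ N → (∀ i, 2 ≤ m i) →
        (∀ g : Fin r → Fin N, Function.Injective g → (Matrix.of fun j k => a j (g k)).det ≠ 0) →
        (∀ j k, coeff k (f j - ∑ i, C (a j i) * X i ^ m i) ≠ 0 → 1 < ∑ i, (k i : ℚ) / m i) →
        ∀ s₀ : ℚ, Q1At χ (Ideal.span (Set.range f)) s₀) ∧
    (∀ χ : K0 →+* ℤ, IsEulerCharF χ →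
      ∀ (N r : ℕ) (w : Fin N → ℕ) (d : Fin r → ℕ) (f : Fin r → MvPolynomial (Fin N) ℂ),
        0 < r → (∀ i, 0 < w i) → (∀ j, 0 < d j) →
        (∀ j m, coeff m (f j) ≠ 0 → d j ≤ ∑ i, m i * w i) → (∀ j, ini w d f j ≠ 0) →
        (∀ c, c ≠ 0 → ∀ e, (∀ j, d j ≤ e → eval c (ini w d f j) = 0) →
          LinearIndependent ℂ fun j : {j // d j ≤ e} => grad (ini w d f j) c) →
        ∀ s₀ : ℚ,
          (∀ j₀, s₀ = -((∑ i, (w i : ℚ) - ∑ j with d j < d j₀, (d j : ℚ)) +
              d j₀ * (Finset.univ.filter fun j => d j < d j₀).card) / d j₀ →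
            (∀ z : ℤ, s₀ ≠ z) → ∃ y : Fin r → ℂ, (∃ j, d j = d j₀ ∧ y j ≠ 0) ∧
              ∑ m ∈ Finset.Icc 1 (d j₀), Complex.exp (-(2 * Real.pi * Complex.I * s₀ * m)) *
                (χ (cls (fibre w d (ini w d f) (d j₀) y m)) : ℂ) ≠ 0) →
          Q1At χ (Ideal.span (Set.range f)) s₀) := by
  refine ⟨?_, fun χ hχ N r m a f hr hrN hm ha hf s₀ hpole ε hε =>
    BH.bh_main hχ hr hrN hm ha hf s₀ hpole ε hε, ?_⟩
  · intro χ hχ N r d f hr hd ho hi hs s₀ hpole ε hε
    exact hom_main hχ d f hr hd ho hi hs s₀ hpole ε hε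
  · intro χ hχ N r w d f hr hw hd ho hi hs s₀ hE hpole ε hε
    refine swci_main hχ w d f hr hw hd ho hi hs s₀ ?_ hpole ε hε
    rintro e ⟨j₀, rfl⟩ - heq hz
    refine hE j₀ ?_ hz
    rw [heq]
    unfold qn nn
    push_cast
    rfl

end MotMono.OldCIV1
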