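import Pool.Agent.Lib.MP_4e5fcd_ag.LF.M3

/-!
# The motivic monodromy conjecture for ideals generated by products of linear forms

The definitions of the statement are in `Pool/Agent/Lib/MP_4e5fcd_ag/Defs.lean` and
`Pool/Agent/Lib/MP_4e5fcd_ag/LF/Defs.lean`.
-/

open MvPolynomial MotMono

namespace Pool.Agent.Results.MP_4e5fcd_ag.LinearFormProducts

/-- Let `I` be an ideal of `ℂ[x₁,…,x_N]` generated by a set `P` of products of linear forms (up to
factors which do not vanish at the origin). If `L^(-s₀)` is a pole of the motivic zeta function of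
`I` at the origin, then in every ball around the origin there is a point `p` of `V(I)` and a point
`y`, not on the zero section, of the normal cone over `p`, such that `exp (2πi s₀)` is a zero or a
pole of the monodromy zeta function at `y`. -/
theorem result {N : ℕ} (P : Set (MvPolynomial (Fin N) ℂ)) (hP : ∀ f ∈ P, IsProdLin f)
    (s₀ : ℚ) (hpole : IsPole (Zmot (Ideal.span P)) s₀) (χ : K0 →+* ℤ) (hχ : IsEulerCharF χ)
    (ε : ℝ) (hε : 0 < ε) :
    ∃ p : Fin N → ℂ, ‖p‖ < ε ∧ (∀ f ∈ Ideal.span P, eval p f = 0) ∧
      ∃ y : ConePoint (Ideal.span P) p, y.Nonzero ∧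
        ∃ Z, IsZeta (fun d => χ (cls (contactArcs (Ideal.span P) p y d))) Z ∧
          ZeroOrPole Z (Complex.exp (2 * Real.pi * Complex.I * s₀)) :=
  LF.set_main P hP s₀ hpole hχ ε hε

end Pool.Agent.Results.MP_4e5fcd_ag.LinearFormProducts
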