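import Pool.Agent.Lib.MP_4e5fcd_ag.Main

/-!
# The motivic monodromy conjecture for products of ideals of linear subspaces

All definitions of the statement are in `Pool/Agent/Lib/MP_4e5fcd_ag/Defs.lean`.
-/

open MvPolynomial MotMono

namespace Pool.Agent.Results.MP_4e5fcd_ag.LinearIdeals

/-- Let `I = ∏ I(W_j) ^ (m_j)` be a product of powers of ideals of linear subspaces of `ℂ^N`. If
`L^(-s₀)` is a pole of the motivic zeta function of `I`, then in every ball around the origin there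
is a point `p` of `V(I)` and a point `y`, not on the zero section, of the normal cone over `p`, such
that `exp (2πi s₀)` is a zero or a pole of the monodromy zeta function at `y`. -/
theorem result {N s : ℕ} (hs : 0 < s) (W : Fin s → Submodule ℂ (Fin N → ℂ))
    (hW : ∀ j, W j ≠ ⊤) (m : Fin s → ℕ) (hm : ∀ j, 0 < m j) (s₀ : ℚ)
    (hpole : IsPole (Zmot (∏ j, linIdeal (W j) ^ m j)) s₀) (ε : ℝ) (hε : 0 < ε) :
    ∃ p : Fin N → ℂ, ‖p‖ < ε ∧ (∀ f ∈ ∏ j, linIdeal (W j) ^ m j, eval p f = 0) ∧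
      ∃ y : ConePoint (∏ j, linIdeal (W j) ^ m j) p, y.Nonzero ∧
        ∀ χ : K0 →+* ℤ, IsEulerChar χ →
          ∃ Z, IsZeta (fun d => χ (cls (contactArcs (∏ j, linIdeal (W j) ^ m j) p y d))) Z ∧
            ZeroOrPole Z (Complex.exp (2 * Real.pi * Complex.I * s₀)) := by
  have : Nonempty (Σ j : Fin s, Fin (m j)) := ⟨⟨⟨0, hs⟩, ⟨0, hm _⟩⟩⟩
  rw [prod_sigma_linIdeal] at *
  exact main_one (fun κ : (Σ j : Fin s, Fin (m j)) => W κ.1) (fun κ => hW κ.1) s₀ hpole ε hε

end Pool.Agent.Results.MP_4e5fcd_ag.LinearIdeals
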