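import Pool.Agent.Lib.MP_4e5fcd_ag.LFM.M3

/-!
# The motivic monodromy conjecture for ideals generated by products of variables and of linear forms
in disjoint monomials

The definitions of the statement are in `Pool/Agent/Lib/MP_4e5fcd_ag/Defs.lean`,
`Pool/Agent/Lib/MP_4e5fcd_ag/LF/Defs.lean` (`IsEulerCharF`),
`Pool/Agent/Lib/MP_4e5fcd_ag/Mon/Defs.lean` (`Mon.blockMon`) and
`Pool/Agent/Lib/MP_4e5fcd_ag/LFM/Defs.lean` (`IsProdMon`).
-/

open MvPolynomial MotMono

namespace Pool.Agent.Results.MP_4e5fcd_ag.MonomialFormProducts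

/-- Let `y_k = ∏_{β l = k} x_l ^ (d l)`, `k = 1, …, s`, be nonconstant monomials with pairwise
disjoint supports, and let `I` be an ideal of `ℂ[x₁,…,x_N]` generated by a set `P` of products of
variables `x_l` with `y_(β l) = x_l ^ (d l)` and of linear forms in `y_1, …, y_s` (up to factors
which do not vanish at the origin). If `L^(-s₀)` is a pole of the motivic zeta function of `I` at
the origin, then in every ball around the origin there is a point `p` of `V(I)` and a point `y`,
not on the zero section, of the normal cone over `p`, such that `exp (2πi s₀)` is a zero or a pole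
of the monodromy zeta function at `y`. -/
theorem result {N s : ℕ} (β : Fin N → Fin s) (hβ : Function.Surjective β) (d : Fin N → ℕ)
    (hd : ∀ l, 0 < d l) (P : Set (MvPolynomial (Fin N) ℂ)) (hP : ∀ f ∈ P, IsProdMon β d f)
    (s₀ : ℚ) (hpole : IsPole (Zmot (Ideal.span P)) s₀) (χ : K0 →+* ℤ) (hχ : IsEulerCharF χ)
    (ε : ℝ) (hε : 0 < ε) :
    ∃ p : Fin N → ℂ, ‖p‖ < ε ∧ (∀ f ∈ Ideal.span P, eval p f = 0) ∧
      ∃ y : ConePoint (Ideal.span P) p, y.Nonzero ∧
        ∃ Z, IsZeta (fun d => χ (cls (contactArcs (Ideal.span P) p y d))) Z ∧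
          ZeroOrPole Z (Complex.exp (2 * Real.pi * Complex.I * s₀)) :=
  LFM.set_mainX β hβ d hd P hP s₀ hpole hχ ε hε

end Pool.Agent.Results.MP_4e5fcd_ag.MonomialFormProducts
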