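import Pool.Agent.Lib.MP_4e5fcd_ag.SW.M1

/-!
# The motivic monodromy conjecture for semi-weighted-homogeneous ideals

The definitions of the statement are in `Pool/Agent/Lib/MP_4e5fcd_ag/Defs.lean`,
`Pool/Agent/Lib/MP_4e5fcd_ag/LF/Defs.lean`, `Pool/Agent/Lib/MP_4e5fcd_ag/WH/Defs.lean`,
`Pool/Agent/Lib/MP_4e5fcd_ag/WH/FDefs.lean` and `Pool/Agent/Lib/MP_4e5fcd_ag/SW/Defs.lean`.
-/

open MvPolynomial MotMono MotMono.WH

namespace Pool.Agent.Results.MP_4e5fcd_ag.SemiWeightedHomogeneous

/-- Let `f j` be polynomials of weighted order `d j > 0` with initial forms `F j = ini w d f j`, and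
let `I` be the ideal generated by them. Assume that for all `c ≠ 0` and `e` such that the `F j`
with `d j ≤ e` vanish at `c` the zero set of the `f j (s ^ w x) / s ^ (d j)`, `d j ≤ e`, is smooth over
the `s`-line at `(0, c)`, and that for every jump `e` of the initial forms at a point `c ≠ 0` with
`s₀ = -(p + e r) / e`, where `p = pn w d F c e` and `r` is the rank at `c` of the gradients of the
`F j` of degree less than `e`, one of the following holds: `e` divides `p`; the set
`{F j = 0, d j < e}` is at most a curve; one of the fibres `{F j = 0 (d j < e), F j = y j (d j = e)}` is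
finite and has a point such that the greatest common divisor of the weights of its non-zero
coordinates divides `p`; `exp (2πi s₀)` is a zero or pole of the zeta function of the monodromy of
one of these fibres. If `L^(-s₀)` is a pole of the motivic zeta function of `I` at the origin, then
in every ball around the origin there is a point `p` of `V(I)` and a point `y`, not on the zero
section, of the normal cone over `p`, such that `exp (2πi s₀)` is a zero or a pole of the monodromy
zeta function at `y`. -/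
theorem result {N r : ℕ} (χ : K0 →+* ℤ) (hχ : IsEulerCharF χ) (w : Fin N → ℕ) (d : Fin r → ℕ)
    (f : Fin r → MvPolynomial (Fin N) ℂ) (hr : 0 < r) (hw : ∀ i, 0 < w i) (hd : ∀ j, 0 < d j)
    (ho : ∀ j m, coeff m (f j) ≠ 0 → d j ≤ ∑ i, m i * w i) (hi : ∀ j, ini w d f j ≠ 0)
    (hs : ∀ c, c ≠ 0 → ∀ e, (∀ j, d j ≤ e → eval c (ini w d f j) = 0) →
      SmoothS (trnS w d f e) c) (s₀ : ℚ)
    (hp : ∀ c, c ≠ 0 → ∀ e, Jump d (ini w d f) c e →
      s₀ = -((pn w d (ini w d f) c e + e * (rk d (ini w d f) c (e - 1) : ℤ) : ℤ) : ℚ) / e →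
      (e : ℤ) ∣ pn w d (ini w d f) c e ∨ CurveAt d (ini w d f) e ∨
      FinVis w d (ini w d f) e (pn w d (ini w d f) c e) ∨
      Eig χ w d (ini w d f) (Complex.exp (2 * Real.pi * Complex.I * s₀)))
    (hpole : IsPole (Zmot (Ideal.span (Set.range f))) s₀) (ε : ℝ) (hε : 0 < ε) :
    ∃ p : Fin N → ℂ, ‖p‖ < ε ∧ (∀ g ∈ Ideal.span (Set.range f), eval p g = 0) ∧
      ∃ y : ConePoint (Ideal.span (Set.range f)) p, y.Nonzero ∧
        ∃ Z, IsZeta (fun m => χ (cls (contactArcs (Ideal.span (Set.range f)) p y m))) Z ∧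
          ZeroOrPole Z (Complex.exp (2 * Real.pi * Complex.I * s₀)) :=
  swh_main hχ w d f hr hw hd ho hi hs s₀ hp hpole ε hε

end Pool.Agent.Results.MP_4e5fcd_ag.SemiWeightedHomogeneous
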