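import Pool.Agent.Lib.MP_4e5fcd_ag.Inv.Main

/-!
# The motivic monodromy conjecture for ideals stable under products of general linear groups

The definitions of the statement are in `Pool/Agent/Lib/MP_4e5fcd_ag/Defs.lean` and
`Pool/Agent/Lib/MP_4e5fcd_ag/Inv/Defs.lean`.
-/

open MvPolynomial MotMono

namespace Pool.Agent.Results.MP_4e5fcd_ag.StableIdeals

/-- Let `I` be an ideal of the polynomial ring in the entries of the generic matrices
`x_1, …, x_s` which is stable under all substitutions `x_a ↦ g_a x_a h_a` with invertible matrices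
`g_a`, `h_a`. If `L^(-s₀)` is a pole of the motivic zeta function of `I`, then in every ball around
the origin there is a point `p` of `V(I)` and a point `y`, not on the zero section, of the normal
cone over `p`, such that `exp (2πi s₀)` is a zero or a pole of the monodromy zeta function at `y`. -/
theorem result {s N : ℕ} {m n : Fin s → ℕ} (hm : ∀ a, 0 < m a) (hmn : ∀ a, m a ≤ n a)
    (e : (Σ a, Fin (m a) × Fin (n a)) ≃ Fin N) (I : Ideal (MvPolynomial (Fin N) ℂ))
    (hI : GLStable e I) (s₀ : ℚ) (hpole : IsPole (Zmot I) s₀) (ε : ℝ) (hε : 0 < ε) :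
    ∃ p : Fin N → ℂ, ‖p‖ < ε ∧ (∀ f ∈ I, eval p f = 0) ∧
      ∃ y : ConePoint I p, y.Nonzero ∧
        ∀ χ : K0 →+* ℤ, IsEulerChar χ →
          ∃ Z, IsZeta (fun d => χ (cls (contactArcs I p y d))) Z ∧
            ZeroOrPole Z (Complex.exp (2 * Real.pi * Complex.I * s₀)) :=
  inv_main e hm hmn I hI s₀ hpole ε hε

end Pool.Agent.Results.MP_4e5fcd_ag.StableIdeals
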